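import Pool.Agent.Helper89.EX.Defs

/-! # MP_5176ab_co: module EM (greedy embedding with rich pairs) -/

set_option autoImplicit false

namespace EX

open Finset SimpleGraph

open scoped Classical

noncomputable section

/-- choosing a petal that avoids a small set -/
theorem EM_petal {V : Type} {s : ℕ} {H : Finset (Finset V)} {a b : V} (h : Rich s H a b)
    (Z : Finset V) (hZ : Z.card < s) :
    ∃ E ∈ H, a ∈ E ∧ b ∈ E ∧ ∀ x ∈ E, x ∈ Z → x = a ∨ x = b := by
  obtain ⟨T, hTH, hTs, hT1, hT2⟩ := h
  by_contra hcon
  push Not at hcon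
  have hbad : ∀ E ∈ T, ∃ x ∈ Z, x ∈ E ∧ x ≠ a ∧ x ≠ b := by
    intro E hE
    obtain ⟨x, hxE, hxZ, hxa, hxb⟩ := hcon E (hTH hE) (hT1 E hE).1 (hT1 E hE).2
    exact ⟨x, hxZ, hxE, hxa, hxb⟩
  have : Nonempty V := ⟨a⟩
  choose! g hg1 hg2 hg3 hg4 using hbad
  have hinj : Set.InjOn g (T : Set (Finset V)) := by
    intro E hE E' hE' hgg
    by_contra hne
    have hint := hT2 E hE E' hE' hne
    have hx : g E ∈ E ∩ E' := mem_inter.2 ⟨hg2 E hE, by rw [hgg]; exact hg2 E' hE'⟩
    rw [hint, mem_insert, mem_singleton] at hx
    rcases hx with hx | hx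
    · exact hg3 E hE hx
    · exact hg4 E hE hx
  have := card_le_card_of_injOn g (fun E hE => hg1 E hE) hinj
  omega

theorem embed {U V : Type} [Fintype U] (k : ℕ) (hk : 1 ≤ k) (H : Finset (Finset V))
    (hH : ∀ E ∈ H, E.card = k + 1) (G : SimpleGraph U) (φ : U → V) (hφ : Function.Injective φ)
    (Q : Finset (Sym2 U)) (hQ : ∀ e ∈ Q, e ∈ G.edgeSet) (D : Sym2 U → Finset V)
    (h1 : ∀ e ∈ Q, D e ∈ H) (h2 : ∀ e ∈ Q, ∀ u, φ u ∈ D e ↔ u ∈ e)
    (h3 : ∀ e ∈ Q, ∀ e' ∈ Q, e ≠ e' → ∀ v, v ∈ D e → v ∈ D e' → ∃ u, φ u = v)
    (h4 : ∀ u v, G.Adj u v → s(u, v) ∉ Q → Rich (sN k G) H (φ u) (φ v)) :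
    Contains H (expansion (k + 1) G) := by
  -- extend the family `D` to all edges
  have ext : ∀ S : Finset (Sym2 U), S ⊆ G.edgeFinset → ∃ D' : Sym2 U → Finset V,
      (∀ e ∈ Q ∪ S, D' e ∈ H) ∧ (∀ e ∈ Q ∪ S, ∀ u, φ u ∈ D' e ↔ u ∈ e) ∧
      (∀ e ∈ Q ∪ S, ∀ e' ∈ Q ∪ S, e ≠ e' → ∀ v, v ∈ D' e → v ∈ D' e' → ∃ u, φ u = v) := by
    intro S
    induction S using Finset.induction_on with
    | empty => intro _; exact ⟨D, by simpa using h1, by simpa using h2, by simpa using h3⟩
    | insert e S heS ih =>
      intro hS
      have hSE : S ⊆ G.edgeFinset := (subset_insert _ _).trans hS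
      obtain ⟨D', d1, d2, d3⟩ := ih hSE
      by_cases he : e ∈ Q ∪ S
      · have hQS : Q ∪ insert e S = Q ∪ S := by
          rw [union_insert, insert_eq_of_mem he]
        rw [hQS]
        exact ⟨D', d1, d2, d3⟩
      · have heE : e ∈ G.edgeSet := by
          have := hS (mem_insert_self e S)
          rwa [mem_edgeFinset] at this
        induction e using Sym2.ind with
        | h u v =>
        have hadj : G.Adj u v := heE
        have hnQ : s(u, v) ∉ Q := fun h => he (mem_union_left _ h)
        have hrich := h4 u v hadj hnQ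
        set Z : Finset V := univ.image φ ∪ (Q ∪ S).biUnion D' with hZ
        have hQE : Q ∪ S ⊆ G.edgeFinset := by
          intro x hx
          rcases mem_union.1 hx with hx | hx
          · rw [mem_edgeFinset]; exact hQ x hx
          · exact hSE hx
        have hZc : Z.card < sN k G := by
          have c1 : (univ.image φ).card ≤ Fintype.card U := card_image_le
          have c2 : ((Q ∪ S).biUnion D').card ≤ (Q ∪ S).card * (k + 1) :=
            card_biUnion_le_card_mul _ _ _ fun x hx => (hH _ (d1 x hx)).le
          have c3 : (Q ∪ S).card * (k + 1) ≤ G.edgeFinset.card * (k + 1) :=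
            Nat.mul_le_mul_right _ (card_le_card hQE)
          have c4 : Z.card ≤ (univ.image φ).card + ((Q ∪ S).biUnion D').card := card_union_le _ _
          have c5 : G.edgeFinset.card * (k + 1) = (k + 1) * G.edgeFinset.card := mul_comm _ _
          unfold sN
          omega
        obtain ⟨E, hEH, huE, hvE, hE⟩ := EM_petal hrich Z hZc
        refine ⟨Function.update D' s(u, v) E, ?_, ?_, ?_⟩
        · intro x hx
          by_cases hxe : x = s(u, v)
          · rw [hxe, Function.update_self]; exact hEH
          · rw [Function.update_of_ne hxe]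
            apply d1
            rw [union_insert, mem_insert] at hx
            exact hx.resolve_left hxe
        · intro x hx w
          by_cases hxe : x = s(u, v)
          · rw [hxe, Function.update_self, Sym2.mem_iff]
            constructor
            · intro hw
              rcases hE _ hw (mem_union_left _ (mem_image_of_mem _ (mem_univ w))) with h | h
              · left; exact hφ h
              · right; exact hφ h
            · rintro (rfl | rfl)
              · exact huE
              · exact hvE
          · rw [Function.update_of_ne hxe]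
            apply d2
            rw [union_insert, mem_insert] at hx
            exact hx.resolve_left hxe
        · have key : ∀ x ∈ Q ∪ S, ∀ y, y ∈ E → y ∈ D' x → ∃ w, φ w = y := by
            intro x hx y hyE hyx
            rcases hE y hyE (mem_union_right _ (mem_biUnion.2 ⟨x, hx, hyx⟩)) with h | h
            · exact ⟨u, h.symm⟩
            · exact ⟨v, h.symm⟩
          intro x hx x' hx' hne y hy hy'
          rw [union_insert, mem_insert] at hx hx'
          by_cases hxe : x = s(u, v)
          · have hx'e : x' ≠ s(u, v) := fun h => hne (hxe.trans h.symm)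
            rw [hxe, Function.update_self] at hy
            rw [Function.update_of_ne hx'e] at hy'
            exact key x' (hx'.resolve_left hx'e) y hy hy'
          · rw [Function.update_of_ne hxe] at hy
            by_cases hx'e : x' = s(u, v)
            · rw [hx'e, Function.update_self] at hy'
              exact key x (hx.resolve_left hxe) y hy' hy
            · rw [Function.update_of_ne hx'e] at hy'
              exact d3 x (hx.resolve_left hxe) x' (hx'.resolve_left hx'e) hne y hy hy'
  obtain ⟨D', d1, d2, d3⟩ := ext G.edgeFinset (Subset.refl _)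
  have hmem : ∀ e : G.edgeSet, (e : Sym2 U) ∈ Q ∪ G.edgeFinset := fun e =>
    mem_union_right _ (by rw [mem_edgeFinset]; exact e.2)
  -- the rest of the edge `D' e`
  set R : G.edgeSet → Finset V := fun e => (D' e).filter fun v => ∀ u, φ u ≠ v with hR
  have hRc : ∀ e, (R e).card = k + 1 - 2 := by
    intro e
    have hsplit := card_filter_add_card_filter_not (s := D' (e : Sym2 U))
      (fun v => ∀ u, φ u ≠ v)
    rw [hH _ (d1 _ (hmem e))] at hsplit
    have h2c : ((D' (e : Sym2 U)).filter fun v => ¬ ∀ u, φ u ≠ v).card = 2 := by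
      obtain ⟨e, he⟩ := e
      induction e using Sym2.ind with
      | h u v =>
      have hadj : G.Adj u v := he
      have : ((D' s(u, v)).filter fun v => ¬ ∀ u, φ u ≠ v) = {φ u, φ v} := by
        ext y
        simp only [mem_filter, mem_insert, mem_singleton]
        constructor
        · rintro ⟨hy, hy2⟩
          push Not at hy2
          obtain ⟨w, rfl⟩ := hy2
          have := (d2 _ (hmem ⟨s(u, v), he⟩) w).1 hy
          rw [Sym2.mem_iff] at this
          rcases this with rfl | rfl
          · left; rfl
          · right; rfl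
        · rintro (rfl | rfl)
          · exact ⟨(d2 _ (hmem ⟨s(u, v), he⟩) u).2 (by simp), by push Not; exact ⟨u, rfl⟩⟩
          · exact ⟨(d2 _ (hmem ⟨s(u, v), he⟩) v).2 (by simp), by push Not; exact ⟨v, rfl⟩⟩
      show ((D' s(u, v)).filter fun v => ¬ ∀ u, φ u ≠ v).card = 2
      rw [this]
      exact card_pair (fun h => hadj.ne (hφ h))
    have : (R e).card + 2 = k + 1 := by rw [← hsplit, h2c]
    omega
  set q : ∀ e : G.edgeSet, R e ≃ Fin (k + 1 - 2) := fun e => (R e).equivFinOfCardEq (hRc e) with hq
  have hRmem : ∀ (e : G.edgeSet) (i : Fin (k + 1 - 2)), (((q e).symm i : R e) : V) ∈ D' (e : Sym2 U) ∧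
      ∀ u, φ u ≠ (((q e).symm i : R e) : V) := by
    intro e i
    have := ((q e).symm i).2
    exact (mem_filter.1 this)
  set f : XV (k + 1) G → V := fun x => Sum.elim φ (fun p => (((q p.1).symm p.2 : R p.1) : V)) x
    with hf
  have hfinj : Function.Injective f := by
    rintro (u | ⟨e, i⟩) (u' | ⟨e', i'⟩) hxy
    · simp only [hf, Sum.elim_inl] at hxy
      rw [hφ hxy]
    · simp only [hf, Sum.elim_inl, Sum.elim_inr] at hxy
      exact absurd hxy ((hRmem e' i').2 u)
    · simp only [hf, Sum.elim_inl, Sum.elim_inr] at hxy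
      exact absurd hxy.symm ((hRmem e i).2 u')
    · simp only [hf, Sum.elim_inr] at hxy
      by_cases hee : e = e'
      · subst hee
        have := (q e).symm.injective (Subtype.ext hxy)
        rw [this]
      · exfalso
        have hne : (e : Sym2 U) ≠ e' := fun h => hee (Subtype.ext h)
        obtain ⟨w, hw⟩ := d3 _ (hmem e) _ (hmem e') hne _ (hRmem e i).1
          (by rw [hxy]; exact (hRmem e' i').1)
        exact (hRmem e i).2 w hw
  refine ⟨⟨f, hfinj⟩, ?_⟩
  intro E hE
  obtain ⟨e, -, rfl⟩ := mem_image.1 hE
  have : (xEdge (k + 1) G e).map ⟨f, hfinj⟩ = D' (e : Sym2 U) := by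
    ext y
    simp only [mem_map, Function.Embedding.coeFn_mk]
    constructor
    · rintro ⟨x, hx, rfl⟩
      rcases x with u | ⟨e', i⟩
      · have hu : u ∈ (e : Sym2 U) := by
          simpa [xEdge] using hx
        exact (d2 _ (hmem e) u).2 hu
      · have he' : e' = e := by
          simpa [xEdge] using hx
        subst he'
        exact (hRmem e' i).1
    · intro hy
      by_cases hyφ : ∀ u, φ u ≠ y
      · refine ⟨Sum.inr (e, q e ⟨y, mem_filter.2 ⟨hy, hyφ⟩⟩), ?_, ?_⟩
        · simp [xEdge]
        · simp [hf]
      · push Not at hyφ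
        obtain ⟨u, rfl⟩ := hyφ
        refine ⟨Sum.inl u, ?_, rfl⟩
        have := (d2 _ (hmem e) u).1 hy
        simpa [xEdge] using this
  rw [this]
  exact d1 _ (hmem e)

end

end EX
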